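import Mathlib

/-!
# MP_8ae77a_co : common edge-cut partitions of several trees at large k
-/

open Filter Topology Set
open scoped Classical

namespace Pool.Agent.Results.MP_8ae77a_co.LargeKNontrivial

/-- A semilabeled binary tree of size `n`: a finite tree all of whose vertices have degree `1` or
`3`, with exactly `n` vertices of degree `1` (leaves), labeled bijectively by `Fin n`. -/
structure SemilabeledTree (n : ℕ) where
  V : Type
  fin : Fintype V
  G : SimpleGraph V
  isTree : G.IsTree
  degree_eq : ∀ v, (G.neighborSet v).ncard = 1 ∨ (G.neighborSet v).ncard = 3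
  leaf : Fin n → V
  leaf_injective : Function.Injective leaf
  leaf_range : ∀ v, (G.neighborSet v).ncard = 1 ↔ v ∈ Set.range leaf

/-- The partitions (as equivalence relations on the label set) induced by deleting a set of edges
of `T`: two labels are equivalent iff their leaves are in the same component. -/
def SemilabeledTree.parts {n : ℕ} (T : SemilabeledTree n) : Set (Setoid (Fin n)) :=
  {r | ∃ S ⊆ T.G.edgeSet, ∀ i j, r i j ↔ (T.G.deleteEdges S).Reachable (T.leaf i) (T.leaf j)}

/-- The set of common partitions with exactly `k` classes of a family of trees. -/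
def common {n t : ℕ} (T : Fin t → SemilabeledTree n) (k : ℕ) : Set (Setoid (Fin n)) :=
  {r | (∀ a, r ∈ (T a).parts) ∧ Nat.card (Quotient r) = k}

section Graph

variable {V : Type*} {G : SimpleGraph V}

/-- the graph without the edge `uv` -/
def cut (G : SimpleGraph V) (u v : V) : SimpleGraph V := G.deleteEdges {s(u, v)}

lemma cut_adj {u v x y : V} : (cut G u v).Adj x y ↔ G.Adj x y ∧ s(x, y) ≠ s(u, v) := by
  unfold cut
  rw [SimpleGraph.deleteEdges_adj]
  simp

lemma cut_comm (u v : V) : cut G u v = cut G v u := by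
  unfold cut; rw [Sym2.eq_swap]

lemma walk_ind {Q : V → Prop} {H : SimpleGraph V} (step : ∀ y z, H.Adj y z → Q y → Q z) {a b : V}
    (h : H.Reachable a b) (ha : Q a) : Q b := by
  obtain ⟨p⟩ := h
  induction p with
  | nil => exact ha
  | cons h p ih => exact ih (step _ _ h ha)

lemma cut_cover (hc : G.Connected) (u v x : V) :
    (cut G u v).Reachable v x ∨ (cut G u v).Reachable u x := by
  refine walk_ind (Q := fun y => (cut G u v).Reachable v y ∨ (cut G u v).Reachable u y)
    (H := G) ?_ (hc v x) (Or.inl (SimpleGraph.Reachable.refl _))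
  intro y z hyz hy
  by_cases he : s(y, z) = s(u, v)
  · rcases Sym2.eq_iff.1 he with ⟨-, rfl⟩ | ⟨-, rfl⟩
    · exact Or.inl (SimpleGraph.Reachable.refl _)
    · exact Or.inr (SimpleGraph.Reachable.refl _)
  · have h1 : (cut G u v).Adj y z := cut_adj.2 ⟨hyz, he⟩
    rcases hy with hy | hy
    · exact Or.inl (hy.trans h1.reachable)
    · exact Or.inr (hy.trans h1.reachable)

lemma bridge (ha : G.IsAcyclic) {u v : V} (h : G.Adj u v) : ¬ (cut G u v).Reachable u v := by
  have h1 := SimpleGraph.isAcyclic_iff_forall_adj_isBridge.1 ha h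
  exact SimpleGraph.isBridge_iff.1 h1

lemma side_step {u v x : V} (h : (cut G u v).Reachable v x) :
    x = v ∨ ∃ a, G.Adj v a ∧ a ≠ u ∧ (cut G v a).Reachable a x := by
  refine walk_ind (Q := fun y => y = v ∨ ∃ a, G.Adj v a ∧ a ≠ u ∧ (cut G v a).Reachable a y)
    (H := cut G u v) ?_ h (Or.inl rfl)
  intro y z hyz hy
  by_cases hz : z = v
  · exact Or.inl hz
  right
  rw [cut_adj] at hyz
  rcases hy with rfl | ⟨a, hva, hau, hay⟩
  · refine ⟨z, hyz.1, ?_, SimpleGraph.Reachable.refl _⟩
    rintro rfl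
    exact hyz.2 Sym2.eq_swap
  · by_cases hy : y = v
    · subst hy
      refine ⟨z, hyz.1, ?_, SimpleGraph.Reachable.refl _⟩
      rintro rfl
      exact hyz.2 Sym2.eq_swap
    · refine ⟨a, hva, hau, hay.trans (SimpleGraph.Adj.reachable ?_)⟩
      rw [cut_adj]
      refine ⟨hyz.1, ?_⟩
      intro he
      rcases Sym2.eq_iff.1 he with ⟨h1, -⟩ | ⟨-, h1⟩
      · exact hy h1
      · exact hz h1

lemma side_sub (ha : G.IsAcyclic) {u v a x : V} (hva : G.Adj v a) (hau : a ≠ u)
    (h : (cut G v a).Reachable a x) : (cut G u v).Reachable v x := by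
  have h0 : (cut G u v).Reachable v a := by
    apply SimpleGraph.Adj.reachable
    rw [cut_adj]
    refine ⟨hva, ?_⟩
    intro he
    rcases Sym2.eq_iff.1 he with ⟨h1, h2⟩ | ⟨-, h1⟩
    · exact hva.ne h2.symm
    · exact hau h1
  have := walk_ind (Q := fun y => (cut G v a).Reachable a y ∧ (cut G u v).Reachable v y)
    (H := cut G v a) ?_ h ⟨SimpleGraph.Reachable.refl _, h0⟩
  · exact this.2
  intro y z hyz ⟨h1, h2⟩
  have h3 : (cut G v a).Reachable a z := h1.trans hyz.reachable
  refine ⟨h3, h2.trans (SimpleGraph.Adj.reachable ?_)⟩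
  rw [cut_adj] at hyz ⊢
  refine ⟨hyz.1, ?_⟩
  intro he
  have hb := bridge ha hva
  rcases Sym2.eq_iff.1 he with ⟨-, h4⟩ | ⟨h4, -⟩
  · rw [h4] at h3; exact hb h3.symm
  · rw [h4] at h1; exact hb h1.symm

end Graph

section Tree

variable {n : ℕ} (T : SemilabeledTree n)

instance : Fintype T.V := T.fin

/-- labels in `X` on the `v`-side of the edge `uv` -/
noncomputable def sideX (X : Finset (Fin n)) (u v : T.V) : Finset (Fin n) :=
  X.filter (fun i => (cut T.G u v).Reachable v (T.leaf i))

lemma sideX_compl {X : Finset (Fin n)} {u v : T.V} (huv : T.G.Adj u v) :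
    X \ sideX T X u v = sideX T X v u := by
  ext i
  simp only [sideX, Finset.mem_sdiff, Finset.mem_filter, not_and]
  constructor
  · rintro ⟨h1, h2⟩
    refine ⟨h1, ?_⟩
    rw [cut_comm]
    exact (cut_cover T.isTree.1 u v _).resolve_left (h2 h1)
  · rintro ⟨h1, h2⟩
    refine ⟨h1, fun _ h3 => ?_⟩
    rw [cut_comm] at h2
    exact bridge T.isTree.2 huv (h2.trans h3.symm)

lemma separator_aux (X : Finset (Fin n)) (hX : 2 ≤ X.card) (m : ℕ) :
    ∀ u v : T.V, T.G.Adj u v → {x | (cut T.G u v).Reachable v x}.ncard ≤ m →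
      X.card ≤ 3 * (sideX T X u v).card →
      ∃ u v : T.V, T.G.Adj u v ∧ X.card ≤ 3 * (sideX T X u v).card ∧
        X.card ≤ 3 * (X \ sideX T X u v).card := by
  induction m with
  | zero =>
    intro u v huv hm _
    exfalso
    have h1 : v ∈ {x | (cut T.G u v).Reachable v x} := SimpleGraph.Reachable.refl _
    have h2 := (Set.ncard_pos (Set.toFinite _)).2 ⟨v, h1⟩
    omega
  | succ m ih =>
    intro u v huv hm hN
    by_cases hgood : X.card ≤ 3 * (X \ sideX T X u v).card
    · exact ⟨u, v, huv, hN, hgood⟩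
    have hsub : sideX T X u v ⊆ X := Finset.filter_subset _ _
    have hcard : (X \ sideX T X u v).card + (sideX T X u v).card = X.card :=
      Finset.card_sdiff_add_card_eq_card hsub
    have hbig : 2 * X.card < 3 * (sideX T X u v).card := by omega
    -- smaller sides
    have hsmall : ∀ a, T.G.Adj v a → a ≠ u →
        {x | (cut T.G v a).Reachable a x}.ncard ≤ m := by
      intro a hva hau
      have h1 : {x | (cut T.G v a).Reachable a x} ⊂ {x | (cut T.G u v).Reachable v x} := by
        refine ⟨fun x hx => side_sub T.isTree.2 hva hau hx, fun h => ?_⟩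
        have h2 : v ∈ {x | (cut T.G v a).Reachable a x} := h (SimpleGraph.Reachable.refl _)
        exact bridge T.isTree.2 hva (SimpleGraph.Reachable.symm h2)
      have h2 := Set.ncard_lt_ncard h1 (Set.toFinite _)
      omega
    have hstep : ∀ a, T.G.Adj v a → a ≠ u → X.card ≤ 3 * (sideX T X v a).card →
        ∃ u v : T.V, T.G.Adj u v ∧ X.card ≤ 3 * (sideX T X u v).card ∧
        X.card ≤ 3 * (X \ sideX T X u v).card := by
      intro a hva hau h
      exact ih v a hva (hsmall a hva hau) h
    rcases T.degree_eq v with h1 | h3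
    · -- leaf
      exfalso
      obtain ⟨w, hw⟩ := Set.ncard_eq_one.1 h1
      have huw : u = w := by
        have : u ∈ T.G.neighborSet v := huv.symm
        rw [hw] at this; exact this
      have h4 : (sideX T X u v).card ≤ 1 := by
        rw [Finset.card_le_one]
        intro i hi j hj
        simp only [sideX, Finset.mem_filter] at hi hj
        have key : ∀ i, (cut T.G u v).Reachable v (T.leaf i) → T.leaf i = v := by
          intro i hi
          rcases side_step hi with h | ⟨a, hva, hau, -⟩
          · exact h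
          · exfalso
            have : a ∈ T.G.neighborSet v := hva
            rw [hw] at this
            exact hau (this.trans huw.symm)
        exact T.leaf_injective ((key i hi.2).trans (key j hj.2).symm)
      omega
    · -- internal vertex
      have hv : ∀ i, T.leaf i ≠ v := by
        intro i hi
        have := (T.leaf_range v).2 ⟨i, hi⟩
        omega
      have hsum : ∀ a b, (∀ c, T.G.Adj v c → c = u ∨ c = a ∨ c = b) →
          (sideX T X u v).card ≤ (sideX T X v a).card + (sideX T X v b).card := by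
        intro a b hab
        refine le_trans (Finset.card_le_card ?_) (Finset.card_union_le _ _)
        intro i hi
        simp only [sideX, Finset.mem_filter, Finset.mem_union] at hi ⊢
        rcases side_step hi.2 with h | ⟨c, hvc, hcu, hc⟩
        · exact absurd h (hv i)
        · rcases hab c hvc with rfl | rfl | rfl
          · exact absurd rfl hcu
          · exact Or.inl ⟨hi.1, hc⟩
          · exact Or.inr ⟨hi.1, hc⟩
      have hfin : ∀ a b, T.G.Adj v a → T.G.Adj v b → a ≠ u → b ≠ u →
          (∀ c, T.G.Adj v c → c = u ∨ c = a ∨ c = b) →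
          ∃ u v : T.V, T.G.Adj u v ∧ X.card ≤ 3 * (sideX T X u v).card ∧
            X.card ≤ 3 * (X \ sideX T X u v).card := by
        intro a b ha hb hau hbu hab
        have h5 := hsum a b hab
        by_cases h6 : X.card ≤ 3 * (sideX T X v a).card
        · exact hstep a ha hau h6
        · exact hstep b hb hbu (by omega)
      obtain ⟨x, y, z, hxy, hxz, hyz, hs⟩ := Set.ncard_eq_three.1 h3
      have hmem : ∀ c, T.G.Adj v c ↔ c = x ∨ c = y ∨ c = z := by
        intro c
        have : T.G.Adj v c ↔ c ∈ T.G.neighborSet v := Iff.rfl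
        rw [this, hs]; simp
      rcases (hmem u).1 huv.symm with rfl | rfl | rfl
      · exact hfin y z ((hmem y).2 (by tauto)) ((hmem z).2 (by tauto)) hxy.symm hxz.symm
          (fun c hc => (hmem c).1 hc)
      · exact hfin x z ((hmem x).2 (by tauto)) ((hmem z).2 (by tauto)) hxy hyz.symm
          (fun c hc => by have := (hmem c).1 hc; tauto)
      · exact hfin x y ((hmem x).2 (by tauto)) ((hmem y).2 (by tauto)) hxz hyz
          (fun c hc => by have := (hmem c).1 hc; tauto)

lemma separator (X : Finset (Fin n)) (hX : 2 ≤ X.card) :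
    ∃ u v : T.V, T.G.Adj u v ∧ X.card ≤ 3 * (sideX T X u v).card ∧
        X.card ≤ 3 * (X \ sideX T X u v).card := by
  obtain ⟨i, hi⟩ : X.Nonempty := Finset.card_pos.1 (by omega)
  have h1 := (T.leaf_range (T.leaf i)).2 ⟨i, rfl⟩
  obtain ⟨w, hw⟩ := Set.ncard_eq_one.1 h1
  have hadj : T.G.Adj (T.leaf i) w := by
    have : w ∈ T.G.neighborSet (T.leaf i) := by rw [hw]; rfl
    exact this
  have hc : (X \ sideX T X (T.leaf i) w).card + (sideX T X (T.leaf i) w).card = X.card :=
    Finset.card_sdiff_add_card_eq_card (Finset.filter_subset _ _)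
  by_cases h : X.card ≤ 3 * (sideX T X (T.leaf i) w).card
  · exact separator_aux T X hX _ _ _ hadj le_rfl h
  · refine separator_aux T X hX _ _ _ hadj.symm le_rfl ?_
    rw [← sideX_compl T hadj]
    omega

/-- `A` and `B` are separated by an edge of `T` -/
def Sep (A B : Finset (Fin n)) : Prop :=
  ∃ u v : T.V, T.G.Adj u v ∧ (∀ i ∈ A, (cut T.G u v).Reachable v (T.leaf i)) ∧
    (∀ i ∈ B, (cut T.G u v).Reachable u (T.leaf i))

lemma exists_sep (P Q : Finset (Fin n)) (hP : 2 ≤ P.card) :
    ∃ P' ⊆ P, ∃ Q' ⊆ Q, P.card ≤ 3 * P'.card ∧ Q.card ≤ 3 * Q'.card ∧ Sep T P' Q' := by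
  obtain ⟨u, v, huv, h1, h2⟩ := separator T P hP
  have hc : (Q \ sideX T Q u v).card + (sideX T Q u v).card = Q.card :=
    Finset.card_sdiff_add_card_eq_card (Finset.filter_subset _ _)
  by_cases h : Q.card ≤ 3 * (sideX T Q u v).card
  · refine ⟨P \ sideX T P u v, Finset.sdiff_subset, sideX T Q u v, Finset.filter_subset _ _, h2, h,
      v, u, huv.symm, ?_, ?_⟩
    · intro i hi
      rw [sideX_compl T huv] at hi
      exact (Finset.mem_filter.1 hi).2
    · intro i hi
      rw [cut_comm]
      exact (Finset.mem_filter.1 hi).2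
  · refine ⟨sideX T P u v, Finset.filter_subset _ _, Q \ sideX T Q u v, Finset.sdiff_subset, h1,
      by omega, u, v, huv, ?_, ?_⟩
    · intro i hi
      exact (Finset.mem_filter.1 hi).2
    · intro i hi
      rw [sideX_compl T huv] at hi
      rw [cut_comm]
      exact (Finset.mem_filter.1 hi).2

end Tree

/-! ### the partitions -/

section Part

variable {n : ℕ}

/-- the equivalence relation with classes `A`, `B` and singletons -/
def rel (A B : Finset (Fin n)) (hAB : Disjoint A B) : Setoid (Fin n) where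
  r i j := i = j ∨ (i ∈ A ∧ j ∈ A) ∨ (i ∈ B ∧ j ∈ B)
  iseqv := by
    constructor
    · intro i; exact Or.inl rfl
    · intro i j h
      rcases h with h | h | h
      · exact Or.inl h.symm
      · exact Or.inr (Or.inl ⟨h.2, h.1⟩)
      · exact Or.inr (Or.inr ⟨h.2, h.1⟩)
    · intro i j k h1 h2
      have hd : ∀ x, x ∈ A → x ∈ B → False := fun x hx hy => Finset.disjoint_left.1 hAB hx hy
      rcases h1 with rfl | h1 | h1
      · exact h2
      · rcases h2 with rfl | h2 | h2
        · exact Or.inr (Or.inl h1)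
        · exact Or.inr (Or.inl ⟨h1.1, h2.2⟩)
        · exact absurd h2.1 (fun h => hd _ h1.2 h)
      · rcases h2 with rfl | h2 | h2
        · exact Or.inr (Or.inr h1)
        · exact absurd h1.2 (fun h => hd _ h2.1 h)
        · exact Or.inr (Or.inr ⟨h1.1, h2.2⟩)

lemma rel_iff {A B : Finset (Fin n)} {hAB : Disjoint A B} {i j : Fin n} :
    rel A B hAB i j ↔ i = j ∨ (i ∈ A ∧ j ∈ A) ∨ (i ∈ B ∧ j ∈ B) := Iff.rfl

/-- the key lemma: realising `rel A B` by deleting edges -/
lemma rel_mem_parts (T : SemilabeledTree n) (A B : Finset (Fin n)) (hAB : Disjoint A B)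
    (S₀ : Set (Sym2 T.V)) (hS₀ : S₀ ⊆ T.G.edgeSet)
    (hA : ∀ i ∈ A, ∀ j ∈ A, (T.G.deleteEdges S₀).Reachable (T.leaf i) (T.leaf j))
    (hB : ∀ i ∈ B, ∀ j ∈ B, (T.G.deleteEdges S₀).Reachable (T.leaf i) (T.leaf j))
    (hsep : ∀ i ∈ A, ∀ j ∈ B, ¬ (T.G.deleteEdges S₀).Reachable (T.leaf i) (T.leaf j)) :
    rel A B hAB ∈ T.parts := by
  -- bad leaves
  let Bad : Set T.V := {x | ∃ i, i ∉ A ∧ i ∉ B ∧ x = T.leaf i}
  let S₁ : Set (Sym2 T.V) := {e | e ∈ T.G.edgeSet ∧ ∃ x ∈ Bad, x ∈ e}
  have hBadLeaf : ∀ x ∈ Bad, ∃ w, T.G.neighborSet x = {w} := by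
    rintro x ⟨i, -, -, rfl⟩
    exact Set.ncard_eq_one.1 ((T.leaf_range _).2 ⟨i, rfl⟩)
  refine ⟨S₀ ∪ S₁, Set.union_subset hS₀ (fun e he => he.1), fun i j => ?_⟩
  have hHadj : ∀ x y, (T.G.deleteEdges (S₀ ∪ S₁)).Adj x y ↔
      (T.G.deleteEdges S₀).Adj x y ∧ x ∉ Bad ∧ y ∉ Bad := by
    intro x y
    rw [SimpleGraph.deleteEdges_adj, SimpleGraph.deleteEdges_adj]
    constructor
    · rintro ⟨h1, h2⟩
      refine ⟨⟨h1, fun h => h2 (Or.inl h)⟩, fun h => h2 (Or.inr ⟨h1, x, h, ?_⟩),
        fun h => h2 (Or.inr ⟨h1, y, h, ?_⟩)⟩ <;> simp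
    · rintro ⟨⟨h1, h2⟩, h3, h4⟩
      refine ⟨h1, ?_⟩
      rintro (h | ⟨-, z, hz, hz'⟩)
      · exact h2 h
      · rcases Sym2.mem_iff.1 hz' with rfl | rfl
        · exact h3 hz
        · exact h4 hz
  -- reachability avoiding bad leaves
  have key : ∀ m : ℕ, ∀ x y : T.V, ∀ p : (T.G.deleteEdges S₀).Walk x y, p.length ≤ m →
      x ∉ Bad → y ∉ Bad → (T.G.deleteEdges (S₀ ∪ S₁)).Reachable x y := by
    intro m
    induction m using Nat.strong_induction_on with
    | _ m ih =>
      intro x y p hp hx hy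
      cases p with
      | nil => exact SimpleGraph.Reachable.refl _
      | @cons _ z _ hxz q =>
        rw [SimpleGraph.Walk.length_cons] at hp
        by_cases hz : z ∈ Bad
        · -- go back
          cases q with
          | nil => exact absurd hz hy
          | @cons _ w _ hzw q' =>
            obtain ⟨w', hw'⟩ := hBadLeaf z hz
            have h1 : x ∈ T.G.neighborSet z := (SimpleGraph.deleteEdges_le _ hxz).symm
            have h2 : w ∈ T.G.neighborSet z := SimpleGraph.deleteEdges_le _ hzw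
            rw [hw'] at h1 h2
            have hxw : x = w := h1.trans h2.symm
            subst hxw
            rw [SimpleGraph.Walk.length_cons] at hp
            exact ih (m - 2) (by omega) x y q' (by omega) hx hy
        · have h1 : (T.G.deleteEdges (S₀ ∪ S₁)).Adj x z := (hHadj x z).2 ⟨hxz, hx, hz⟩
          exact h1.reachable.trans (ih (m - 1) (by omega) z y q (by omega) hz hy)
  have hgood : ∀ i, i ∈ A ∨ i ∈ B → T.leaf i ∉ Bad := by
    rintro i hi ⟨j, hj1, hj2, hj⟩
    have := T.leaf_injective hj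
    subst this
    tauto
  rw [rel_iff]
  constructor
  · rintro (rfl | ⟨h1, h2⟩ | ⟨h1, h2⟩)
    · exact SimpleGraph.Reachable.refl _
    · obtain ⟨p⟩ := hA i h1 j h2
      exact key _ _ _ p le_rfl (hgood i (Or.inl h1)) (hgood j (Or.inl h2))
    · obtain ⟨p⟩ := hB i h1 j h2
      exact key _ _ _ p le_rfl (hgood i (Or.inr h1)) (hgood j (Or.inr h2))
  · intro h
    by_cases hij : i = j
    · exact Or.inl hij
    right
    have hle : T.G.deleteEdges (S₀ ∪ S₁) ≤ T.G.deleteEdges S₀ := by
      intro x y hxy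
      exact ((hHadj x y).1 hxy).1
    have hiso : ∀ i j : Fin n, i ≠ j →
        (T.G.deleteEdges (S₀ ∪ S₁)).Reachable (T.leaf i) (T.leaf j) → i ∈ A ∨ i ∈ B := by
      intro i j hij h
      by_contra hc
      push Not at hc
      have hbad : T.leaf i ∈ Bad := ⟨i, hc.1, hc.2, rfl⟩
      have h1 := walk_ind (Q := fun y => y = T.leaf i) (H := T.G.deleteEdges (S₀ ∪ S₁)) (by
        intro y z hyz hy
        have h2 := ((hHadj y z).1 hyz).2.1
        rw [hy] at h2
        exact absurd hbad h2) h rfl
      exact hij (T.leaf_injective h1).symm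
    have hi := hiso i j hij h
    have hj := hiso j i (Ne.symm hij) h.symm
    have h' : (T.G.deleteEdges S₀).Reachable (T.leaf i) (T.leaf j) := h.mono hle
    rcases hi with hi | hi <;> rcases hj with hj | hj
    · exact Or.inl ⟨hi, hj⟩
    · exact absurd h' (hsep i hi j hj)
    · exact absurd h'.symm (hsep j hj i hi)
    · exact Or.inr ⟨hi, hj⟩

/-- number of classes of `rel A B` with both `A`, `B` nonempty -/
lemma card_quotient (A B : Finset (Fin n)) (hAB : Disjoint A B) (hA : A.Nonempty)
    (hB : B.Nonempty) : Nat.card (Quotient (rel A B hAB)) + A.card + B.card = n + 2 := by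
  obtain ⟨a, ha⟩ := hA
  obtain ⟨b, hb⟩ := hB
  have hd : ∀ x, x ∈ A → x ∈ B → False := fun x hx hy => Finset.disjoint_left.1 hAB hx hy
  let φ : Fin n → Fin n := fun i => if i ∈ A then a else if i ∈ B then b else i
  have hker : rel A B hAB = Setoid.ker φ := by
    ext i j
    rw [rel_iff, Setoid.ker_def]
    show _ ↔ (if i ∈ A then a else if i ∈ B then b else i) =
      (if j ∈ A then a else if j ∈ B then b else j)
    have hab : a ≠ b := fun h => hd a ha (h ▸ hb)
    have hdi := hd i
    have hdj := hd j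
    split_ifs with h1 h2 h3 h4 h5 h6 h7 h8
    all_goals constructor
    all_goals first
      | (rintro (rfl | h | h) <;> tauto)
      | (intro h; first
          | tauto
          | (subst h; tauto))
  rw [hker]
  have h1 : Nat.card (Quotient (Setoid.ker φ)) = Nat.card (Set.range φ) :=
    Nat.card_congr (Setoid.quotientKerEquivRange φ)
  have h2 : Set.range φ = (((A ∪ B)ᶜ ∪ {a, b} : Finset (Fin n)) : Set (Fin n)) := by
    ext x
    simp only [Set.mem_range, Finset.coe_union, Finset.coe_compl, Set.mem_union,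
      Set.mem_compl_iff, Finset.coe_insert, Finset.coe_singleton, Set.mem_insert_iff,
      Set.mem_singleton_iff, Finset.mem_coe]
    constructor
    · rintro ⟨i, rfl⟩
      show (¬ ((if i ∈ A then a else if i ∈ B then b else i) ∈ A ∨ _ ∈ B)) ∨ _ = a ∨ _ = b
      by_cases hiA : i ∈ A
      · simp [φ, hiA]
      · by_cases hiB : i ∈ B
        · simp [φ, hiA, hiB]
        · simp [φ, hiA, hiB]
    · rintro (h | rfl | rfl)
      · push Not at h
        exact ⟨x, by simp [φ, h.1, h.2]⟩
      · exact ⟨x, by simp [φ, ha]⟩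
      · exact ⟨x, by
          have : x ∉ A := fun h => hd x h hb
          simp [φ, hb, this]⟩
  have hab : a ≠ b := fun h => hd a ha (h ▸ hb)
  rw [h1, h2, Nat.card_eq_card_toFinset, Finset.toFinset_coe, Finset.card_union_of_disjoint,
    Finset.card_compl, Finset.card_union_of_disjoint hAB, Finset.card_pair hab, Fintype.card_fin]
  · have h3 := Finset.card_union_of_disjoint hAB
    have h4 : (A ∪ B).card ≤ n := by
      simpa using Finset.card_le_univ (A ∪ B)
    omega
  · rw [Finset.disjoint_right]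
    intro x hx
    simp only [Finset.mem_insert, Finset.mem_singleton] at hx
    rcases hx with rfl | rfl
    · simp [ha]
    · simp [hb]

lemma Sep.mono {T : SemilabeledTree n} {A B A' B' : Finset (Fin n)} (h : Sep T A B)
    (hA : A' ⊆ A) (hB : B' ⊆ B) : Sep T A' B' := by
  obtain ⟨u, v, huv, h1, h2⟩ := h
  exact ⟨u, v, huv, fun i hi => h1 i (hA hi), fun i hi => h2 i (hB hi)⟩

lemma mem_parts_of_sep {T : SemilabeledTree n} {A B : Finset (Fin n)} (hAB : Disjoint A B)
    (h : Sep T A B) : rel A B hAB ∈ T.parts := by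
  obtain ⟨u, v, huv, h1, h2⟩ := h
  refine rel_mem_parts T A B hAB {s(u, v)} ?_ ?_ ?_ ?_
  · rintro e rfl
    exact huv
  · intro i hi j hj
    exact (h1 i hi).symm.trans (h1 j hj)
  · intro i hi j hj
    exact (h2 i hi).symm.trans (h2 j hj)
  · intro i hi j hj hr
    exact bridge T.isTree.2 huv ((h2 j hj).trans (hr.symm.trans (h1 i hi).symm))

lemma trivial_mem_parts (T : SemilabeledTree n) (A : Finset (Fin n)) :
    rel A ∅ (Finset.disjoint_empty_right A) ∈ T.parts := by
  refine rel_mem_parts T A ∅ _ ∅ (Set.empty_subset _) ?_ ?_ ?_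
  · intro i _ j _
    rw [SimpleGraph.deleteEdges_empty]
    exact T.isTree.1 _ _
  · intro i hi
    simp at hi
  · intro i _ j hj
    simp at hj

lemma card_quotient_trivial (A : Finset (Fin n)) (hA : A.Nonempty) {b : Fin n} (hb : b ∉ A) :
    Nat.card (Quotient (rel A ∅ (Finset.disjoint_empty_right A))) + A.card = n + 1 := by
  have hd : Disjoint A {b} := by simpa using hb
  have h1 : rel A ∅ (Finset.disjoint_empty_right A) = rel A {b} hd := by
    ext i j
    rw [rel_iff, rel_iff]
    simp only [Finset.notMem_empty, false_and, or_false, Finset.mem_singleton]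
    constructor
    · rintro (h | h)
      · exact Or.inl h
      · exact Or.inr (Or.inl h)
    · rintro (h | h | h)
      · exact Or.inl h
      · exact Or.inr h
      · exact Or.inl (h.1.trans h.2.symm)
  have h2 := card_quotient A {b} hd hA (Finset.singleton_nonempty b)
  rw [← h1, Finset.card_singleton] at h2
  omega

lemma common_sep : ∀ (t : ℕ) (T : Fin t → SemilabeledTree n), 2 * 3 ^ (t + 1) ≤ n →
    ∃ P Q : Finset (Fin n), Disjoint P Q ∧ n ≤ 3 ^ (t + 1) * P.card ∧
      n ≤ 3 ^ (t + 1) * Q.card ∧ ∀ a, Sep (T a) P Q := by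
  intro t
  induction t with
  | zero =>
    intro T hn
    have h1 : n / 2 ≤ (Finset.univ : Finset (Fin n)).card := by
      rw [Finset.card_univ, Fintype.card_fin]; omega
    obtain ⟨P, -, hP⟩ := Finset.exists_subset_card_eq h1
    refine ⟨P, Pᶜ, disjoint_compl_right, ?_, ?_, fun a => a.elim0⟩
    · rw [hP]; omega
    · rw [Finset.card_compl, Fintype.card_fin, hP]; omega
  | succ t ih =>
    intro T hn
    have h3 : 3 ^ (t + 1 + 1) = 3 * 3 ^ (t + 1) := by ring
    have hpos : 0 < 3 ^ (t + 1) := by positivity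
    obtain ⟨P, Q, hd, hP, hQ, hs⟩ := ih (fun a => T a.castSucc) (by omega)
    have hP2 : 2 ≤ P.card := by
      by_contra hlt
      have : 3 ^ (t + 1) * P.card ≤ 3 ^ (t + 1) * 1 := Nat.mul_le_mul_left _ (by omega)
      omega
    obtain ⟨P', hP', Q', hQ', h1, h2, hs'⟩ := exists_sep (T (Fin.last t)) P Q hP2
    refine ⟨P', Q', Disjoint.mono hP' hQ' hd, ?_, ?_, fun a => ?_⟩
    · have := Nat.mul_le_mul_left (3 ^ (t + 1)) h1
      calc n ≤ 3 ^ (t + 1) * P.card := hP
        _ ≤ 3 ^ (t + 1) * (3 * P'.card) := this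
        _ = 3 ^ (t + 1 + 1) * P'.card := by ring
    · have := Nat.mul_le_mul_left (3 ^ (t + 1)) h2
      calc n ≤ 3 ^ (t + 1) * Q.card := hQ
        _ ≤ 3 ^ (t + 1) * (3 * Q'.card) := this
        _ = 3 ^ (t + 1 + 1) * Q'.card := by ring
    · refine Fin.lastCases ?_ (fun a => ?_) a
      · exact hs'
      · exact (hs a).mono hP' hQ'

lemma finite_setoid : Finite (Setoid (Fin n)) := by
  have : Function.Injective (fun (r : Setoid (Fin n)) => (fun i j => r i j : Fin n → Fin n → Prop)) := by
    intro r s h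
    ext i j
    exact iff_of_eq (congrFun (congrFun h i) j)
  exact Finite.of_injective _ this

/-- the counting step -/
lemma lower_count {t k : ℕ} (T : Fin t → SemilabeledTree n) (A B : Finset (Fin n))
    (hAB : Disjoint A B) (hs : ∀ a, Sep (T a) A B) (hA : 2 ≤ A.card) (hB : 2 ≤ B.card)
    (hk : k + A.card + B.card = n + 2) (hk2 : 2 ≤ k) :
    n.choose (k - 1) < (common T k).ncard := by
  have hfin := finite_setoid (n := n)
  let F : Finset (Fin n) → Setoid (Fin n) := fun Z => rel Zᶜ ∅ (Finset.disjoint_empty_right _)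
  let I : Finset (Setoid (Fin n)) := (Finset.powersetCard (k - 1) Finset.univ).image F
  have hcompl : ∀ Z : Finset (Fin n), Z.card = k - 1 → 2 ≤ Zᶜ.card := by
    intro Z hZ
    rw [Finset.card_compl, Fintype.card_fin, hZ]; omega
  have hFmem : ∀ Z : Finset (Fin n), 2 ≤ Zᶜ.card → ∀ i, (i ∈ Zᶜ ↔ ∃ j, j ≠ i ∧ F Z i j) := by
    intro Z hZ i
    constructor
    · intro hi
      obtain ⟨j, hj, hji⟩ := Finset.exists_mem_ne (by omega : 1 < Zᶜ.card) i
      exact ⟨j, hji, Or.inr (Or.inl ⟨hi, hj⟩)⟩
    · rintro ⟨j, hji, h⟩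
      rcases h with h | h | h
      · exact absurd h.symm hji
      · exact h.1
      · exact absurd h.1 (Finset.notMem_empty _)
  have hinj : Set.InjOn F (Finset.powersetCard (k - 1) (Finset.univ : Finset (Fin n))) := by
    intro Z hZ W hW h
    have hZ' := (Finset.mem_powersetCard.1 (Finset.mem_coe.1 hZ)).2
    have hW' := (Finset.mem_powersetCard.1 (Finset.mem_coe.1 hW)).2
    have h1 : Zᶜ = Wᶜ := by
      ext i
      rw [hFmem Z (hcompl Z hZ') i, hFmem W (hcompl W hW') i, h]
    exact compl_injective h1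
  have hIcard : I.card = n.choose (k - 1) := by
    rw [Finset.card_image_of_injOn hinj, Finset.card_powersetCard, Finset.card_univ,
      Fintype.card_fin]
  have hnot : rel A B hAB ∉ I := by
    intro h
    obtain ⟨Z, hZ, hZr⟩ := Finset.mem_image.1 h
    have hZ' := (Finset.mem_powersetCard.1 hZ).2
    obtain ⟨a, ha⟩ : A.Nonempty := Finset.card_pos.1 (by omega)
    obtain ⟨b, hb⟩ : B.Nonempty := Finset.card_pos.1 (by omega)
    have hd : ∀ x, x ∈ A → x ∈ B → False := fun x hx hy => Finset.disjoint_left.1 hAB hx hy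
    have haZ : a ∈ Zᶜ := by
      rw [hFmem Z (hcompl Z hZ') a]
      obtain ⟨j, hj, hja⟩ := Finset.exists_mem_ne (by omega : 1 < A.card) a
      refine ⟨j, hja, ?_⟩
      rw [hZr]
      exact Or.inr (Or.inl ⟨ha, hj⟩)
    have hbZ : b ∈ Zᶜ := by
      rw [hFmem Z (hcompl Z hZ') b]
      obtain ⟨j, hj, hja⟩ := Finset.exists_mem_ne (by omega : 1 < B.card) b
      refine ⟨j, hja, ?_⟩
      rw [hZr]
      exact Or.inr (Or.inr ⟨hb, hj⟩)
    have hab : F Z a b := Or.inr (Or.inl ⟨haZ, hbZ⟩)
    rw [hZr] at hab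
    rcases hab with h | h | h
    · exact hd a ha (h ▸ hb)
    · exact hd b h.2 hb
    · exact hd a ha h.1
  have hsub : ((insert (rel A B hAB) I : Finset (Setoid (Fin n))) : Set (Setoid (Fin n))) ⊆
      common T k := by
    intro r hr
    rw [Finset.mem_coe, Finset.mem_insert] at hr
    rcases hr with rfl | hr
    · refine ⟨fun a => mem_parts_of_sep hAB (hs a), ?_⟩
      have := card_quotient A B hAB (Finset.card_pos.1 (by omega)) (Finset.card_pos.1 (by omega))
      omega
    · obtain ⟨Z, hZ, rfl⟩ := Finset.mem_image.1 hr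
      have hZ' := (Finset.mem_powersetCard.1 hZ).2
      refine ⟨fun a => trivial_mem_parts (T a) _, ?_⟩
      obtain ⟨b, hb⟩ : Z.Nonempty := Finset.card_pos.1 (by omega)
      have h1 := card_quotient_trivial Zᶜ (Finset.card_pos.1 (by have := hcompl Z hZ'; omega))
        (b := b) (by simpa using hb)
      rw [Finset.card_compl, Fintype.card_fin, hZ'] at h1
      have h2 : Z.card ≤ n := by simpa using Finset.card_le_univ Z
      show Nat.card (Quotient (rel Zᶜ ∅ (Finset.disjoint_empty_right _))) = k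
      omega
  have h1 := Set.ncard_le_ncard hsub (Set.toFinite _)
  rw [Set.ncard_coe_finset, Finset.card_insert_of_notMem hnot, hIcard] at h1
  omega

end Part

/-- **MP_8ae77a_co, Q1 (disproved).** For every `t` and every `f : ℕ → ℕ` with `f(n) = o(n)`, for
all sufficiently large `n` there is `k` with `1 ≤ k < n - f(n)` such that every collection of `t`
semilabeled binary trees of size `n` has more than `n.choose (k - 1)` common partitions with
exactly `k` classes. -/
theorem result (t : ℕ) (f : ℕ → ℕ) (hf : Tendsto (fun n => (f n : ℝ) / n) atTop (𝓝 0)) :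
    ∀ᶠ n in atTop, ∃ k, 1 ≤ k ∧ k + f n < n ∧
      ∀ T : Fin t → SemilabeledTree n, n.choose (k - 1) < (common T k).ncard := by
  have hpos : (0 : ℝ) < 1 / (2 * 3 ^ (t + 1)) := by positivity
  have h1 : ∀ᶠ n : ℕ in atTop, (f n : ℝ) / n < 1 / (2 * 3 ^ (t + 1)) :=
    (tendsto_order.1 hf).2 _ hpos
  filter_upwards [h1, eventually_ge_atTop (4 * 3 ^ (t + 1) + 8)] with n hn1 hn2
  have hn0 : (0 : ℝ) < n := by
    have : 0 < n := by omega
    exact_mod_cast this
  have h2 : 2 * 3 ^ (t + 1) * f n < n := by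
    rw [div_lt_div_iff₀ hn0 (by positivity)] at hn1
    have h3 : ((2 * 3 ^ (t + 1) * f n : ℕ) : ℝ) < (n : ℝ) := by
      push_cast
      nlinarith
    exact_mod_cast h3
  set p := 3 ^ (t + 1) with hp
  have hp3 : 3 ≤ p := by
    rw [hp, pow_succ]
    have : 1 ≤ 3 ^ t := Nat.one_le_pow _ _ (by norm_num)
    omega
  have h4 : p * (f n + 2) ≤ n := by nlinarith
  have h5 : 3 * (f n + 2) ≤ n := le_trans (Nat.mul_le_mul_right _ hp3) h4
  refine ⟨n - f n - 2, by omega, by omega, fun T => ?_⟩
  obtain ⟨P, Q, hd, hP, hQ, hs⟩ := common_sep t T (by omega)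
  rw [← hp] at hP hQ
  have hP2 : 2 ≤ P.card := by
    by_contra hlt
    have : p * P.card ≤ p * 1 := Nat.mul_le_mul_left _ (by omega)
    omega
  have hQ2 : f n + 2 ≤ Q.card := by
    have : p * (f n + 2) ≤ p * Q.card := le_trans h4 hQ
    exact Nat.le_of_mul_le_mul_left this (by omega)
  obtain ⟨A, hA, hAc⟩ := Finset.exists_subset_card_eq hP2
  obtain ⟨B, hB, hBc⟩ := Finset.exists_subset_card_eq hQ2
  exact lower_count T A B (Disjoint.mono hA hB hd) (fun a => (hs a).mono hA hB) (by omega)
    (by omega) (by omega) (by omega)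

end Pool.Agent.Results.MP_8ae77a_co.LargeKNontrivial
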